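import Mathlib
import Pool.Agent.W44.LM.Sharp

set_option autoImplicit false

/-!
# Leigh's chain: the classes with linearly bounded trajectories

`T`, `P`, `Data`, `Class`, `Lam`, `S` are the map, the transition probabilities, the admissible
data, the finite closed communicating classes with their stationary distribution, the number `Λ_C`
and the union `S_C`, as in the library file `Pool.Agent.H319R2.LeighBridge`; a state `(j, k)` is
the class of `j` modulo `d k`. `ClosedPath d m r e C p γ` says that `γ 0 → γ 1 → … → γ p = γ 0` is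
a closed path of length `p ≥ 1` of Leigh's chain in the class `C`, and `pathProd d m p γ` is the
product of the numbers `|m_i| / d` along the path.
-/

namespace Pool.Agent.Results.MP_39d40e_nt.LinearBounds

open Finset Filter Pool.Agent.H319R2.Leigh Pool.Agent.W44.LM

/-- Let `C` be a finite closed communicating class of Leigh's chain of a generalised Collatz map
with `Λ_C ≠ 1`. There is `K` with `|T^n x| ≤ K (1 + |x|)` for all `x ∈ S_C` and `n ≥ 0` if and only
if no closed path of length at most `|C|` in `C` has product of the `|m_i| / d` greater than `1`;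
and there is `K` with `|x| ≤ K (1 + |T^n x|)` for all `x ∈ S_C` and `n ≥ 0` if and only if no closed
path of length at most `|C|` in `C` has product less than `1`. -/
theorem result (d : ℕ) (m r b : ℤ → ℤ) (e : ℤ → ℕ) (D : Data d m r b e) (C : Finset (ℤ × ℕ))
    (ρ : ℤ × ℕ → ℝ) (hC : Class d m r e C ρ) (hne : Lam d m C ρ ≠ 1) :
    ((∃ K : ℝ, ∀ x ∈ S d C, ∀ n : ℕ, |(((T d m r)^[n] x : ℤ) : ℝ)| ≤ K * (1 + |(x : ℝ)|)) ↔
      ∀ p γ, p ≤ C.card → ClosedPath d m r e C p γ → pathProd d m p γ ≤ 1) ∧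
    ((∃ K : ℝ, ∀ x ∈ S d C, ∀ n : ℕ, |(x : ℝ)| ≤ K * (1 + |(((T d m r)^[n] x : ℤ) : ℝ)|)) ↔
      ∀ p γ, p ≤ C.card → ClosedPath d m r e C p γ → 1 ≤ pathProd d m p γ) := by
  refine ⟨⟨?_, ?_⟩, ⟨?_, ?_⟩⟩
  · rintro ⟨K, hK⟩ p γ _ hγ
    by_contra hcon
    obtain ⟨x, hx, n, hlt⟩ := grows D hC hγ (not_le.1 hcon) K
    exact absurd (hK x hx n) (not_le.2 hlt)
  · intro h
    exact lin_up D hC fun p γ hp hγ => lt_of_le_of_ne (h p γ hp hγ)
      fun h6 => hne (neutral_Lam D hC hγ h6)
  · rintro ⟨K, hK⟩ p γ _ hγ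
    by_contra hcon
    obtain ⟨x, hx, n, hlt⟩ := shrinks D hC hγ (not_le.1 hcon) K
    exact absurd (hK x hx n) (not_le.2 hlt)
  · intro h
    exact lin_down D hC fun p γ hp hγ => lt_of_le_of_ne (h p γ hp hγ)
      fun h6 => hne (neutral_Lam D hC hγ h6.symm)

end Pool.Agent.Results.MP_39d40e_nt.LinearBounds
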