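import Mathlib
import Pool.Agent.W44.LM.Cyc

set_option autoImplicit false

/-!
# Leigh's two conjectures for the classes that are not mixed

`T`, `P`, `Data`, `Class`, `Lam`, `S` are the map, the transition probabilities, the admissible
data, the finite closed communicating classes with their stationary distribution, the number `Λ_C`
and the union `S_C`, as in the library file `Pool.Agent.H319R2.LeighBridge`; a state `(j, k)` is
the class of `j` modulo `d k`. `succ d e B` is the number `d / gcd (k d_i, d)` of successors of the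
state `B = (j, k)`, `ClosedPath d m r e C p γ` says that `γ 0 → γ 1 → … → γ p = γ 0` is a closed
path of length `p ≥ 1` of Leigh's chain in the class `C`, and `pathProd d m p γ` is the product of
the numbers `|m_i| / d` along the path.
-/

namespace Pool.Agent.Results.MP_39d40e_nt.UnmixedClasses

open Finset Filter Pool.Agent.H319R2.Leigh Pool.Agent.W44.LM

/-- the class `C` is mixed: it has a closed path of length at most `|C|` with product of the
`|m_i| / d` less than `1`, and one with product greater than `1` -/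
def Mixed (d : ℕ) (m r : ℤ → ℤ) (e : ℤ → ℕ) (C : Finset (ℤ × ℕ)) : Prop :=
  (∃ p γ, p ≤ C.card ∧ ClosedPath d m r e C p γ ∧ pathProd d m p γ < 1) ∧
    ∃ p γ, p ≤ C.card ∧ ClosedPath d m r e C p γ ∧ 1 < pathProd d m p γ

/-- Let `C` be a finite closed communicating class of Leigh's chain of a generalised Collatz map.
Suppose that `C` is not mixed; by the second part this is so if `|b(B)|` is at most the number of
successors of `B` for all `B ∈ C`, and if it is at least this number for all `B ∈ C`. Then: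

* if `Λ_C < 1` then every trajectory in `S_C` cycles, and there is `K` such that
  `|T^n x| ≤ K` for all `x ∈ S_C` and `n ≥ K log (1 + |x|)`;
* if `Λ_C > 1` then all but finitely many `x ∈ S_C` have a divergent trajectory, and there are `K`
  and `l > 1` with `|T^n x| ≥ l ^ n / K` for all `n` and all `x ∈ S_C` with `|x| ≥ K`;
* if `Λ_C = 1` then every state of `C` has exactly one successor, and `|b| = 1` on `C`. -/
theorem result (d : ℕ) (m r b : ℤ → ℤ) (e : ℤ → ℕ) (D : Data d m r b e) (C : Finset (ℤ × ℕ))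
    (ρ : ℤ × ℕ → ℝ) (hC : Class d m r e C ρ) :
    (¬ Mixed d m r e C →
      (Lam d m C ρ < 1 →
        (∀ x ∈ S d C, ∃ n p : ℕ, 0 < p ∧ (T d m r)^[n + p] x = (T d m r)^[n] x) ∧
        ∃ K : ℝ, ∀ x ∈ S d C, ∀ n : ℕ, K * Real.log (1 + |(x : ℝ)|) ≤ n →
          |(((T d m r)^[n] x : ℤ) : ℝ)| ≤ K) ∧
      (1 < Lam d m C ρ →
        {x : ℤ | x ∈ S d C ∧ ¬ Tendsto (fun n : ℕ => |(T d m r)^[n] x|) atTop atTop}.Finite ∧
        ∃ K l : ℝ, 0 < K ∧ 1 < l ∧ ∀ x ∈ S d C, K ≤ |(x : ℝ)| → ∀ n : ℕ,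
          l ^ n / K ≤ |(((T d m r)^[n] x : ℤ) : ℝ)|) ∧
      (Lam d m C ρ = 1 → ∀ B ∈ C, succ d e B = 1 ∧ |b (B.1 % d)| = 1)) ∧
    ((∀ B ∈ C, |b (B.1 % d)| ≤ (succ d e B : ℤ)) ∨ (∀ B ∈ C, (succ d e B : ℤ) ≤ |b (B.1 % d)|) →
      ¬ Mixed d m r e C) := by
  -- contracting case
  have h2 : (∀ p γ, p ≤ C.card → ClosedPath d m r e C p γ → pathProd d m p γ < 1) →
      Lam d m C ρ < 1 ∧
      (∀ x ∈ S d C, ∃ n p : ℕ, 0 < p ∧ (T d m r)^[n + p] x = (T d m r)^[n] x) ∧
      ∃ K : ℝ, ∀ x ∈ S d C, ∀ n : ℕ, K * Real.log (1 + |(x : ℝ)|) ≤ n →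
        |(((T d m r)^[n] x : ℤ) : ℝ)| ≤ K := by
    intro h
    obtain ⟨K, hK, hb⟩ := cyc_down D hC h
    refine ⟨Lam_lt D hC h, ?_, K, hb⟩
    intro x hx
    obtain ⟨N, hN⟩ := exists_nat_ge (K * Real.log (1 + |(x : ℝ)|))
    exact cycles (N := N) fun n hn => hb x hx n (hN.trans (by exact_mod_cast hn))
  -- expanding case
  have h3 : (∀ p γ, p ≤ C.card → ClosedPath d m r e C p γ → 1 < pathProd d m p γ) →
      1 < Lam d m C ρ ∧
      {x : ℤ | x ∈ S d C ∧ ¬ Tendsto (fun n : ℕ => |(T d m r)^[n] x|) atTop atTop}.Finite ∧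
      ∃ K l : ℝ, 0 < K ∧ 1 < l ∧ ∀ x ∈ S d C, K ≤ |(x : ℝ)| → ∀ n : ℕ,
        l ^ n / K ≤ |(((T d m r)^[n] x : ℤ) : ℝ)| := by
    intro h
    obtain ⟨K, l, hK, hl, hb⟩ := cyc_up D hC h
    refine ⟨lt_Lam D hC h, ?_, K, l, hK, hl, ?_⟩
    · apply (Set.finite_Icc (-⌈K⌉) ⌈K⌉).subset
      rintro x ⟨hx, hnt⟩
      have h1 : |(x : ℝ)| < K := by
        by_contra hcon
        exact hnt (tends hK hl (hb x hx (not_lt.1 hcon)))
      rw [abs_lt] at h1
      have h2 := Int.le_ceil K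
      constructor
      · have : (-(⌈K⌉ : ℝ)) ≤ x := by linarith
        exact_mod_cast this
      · have : (x : ℝ) ≤ ⌈K⌉ := by linarith
        exact_mod_cast this
    · intro x hx hxK n
      rw [div_le_iff₀ hK, mul_comm]
      exact hb x hx hxK n
  have h4 : ∀ p γ, ClosedPath d m r e C p γ → pathProd d m p γ = 1 →
      Lam d m C ρ = 1 ∧ ∀ B ∈ C, succ d e B = 1 ∧ |b (B.1 % d)| = 1 :=
    fun p γ hγ h1 => ⟨neutral_Lam D hC hγ h1, neutral D hC hγ h1⟩
  constructor
  · intro hmix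
    by_cases hn : ∃ p γ, ClosedPath d m r e C p γ ∧ pathProd d m p γ = 1
    · obtain ⟨p, γ, hγ, h1⟩ := hn
      have h5 := h4 p γ hγ h1
      exact ⟨fun h6 => absurd h5.1 h6.ne, fun h6 => absurd h5.1 h6.ne', fun _ => h5.2⟩
    · by_cases hex : ∃ p γ, p ≤ C.card ∧ ClosedPath d m r e C p γ ∧ 1 < pathProd d m p γ
      · have h5 := h3 fun p γ hp hγ => by
          by_contra hcon
          rcases lt_or_eq_of_le (not_lt.1 hcon) with h6 | h6
          · exact hmix ⟨⟨p, γ, hp, hγ, h6⟩, hex⟩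
          · exact hn ⟨p, γ, hγ, h6⟩
        exact ⟨fun h6 => absurd h5.1 (not_lt.2 h6.le), fun _ => h5.2,
          fun h6 => absurd h6 h5.1.ne'⟩
      · have h5 := h2 fun p γ hp hγ => by
          by_contra hcon
          rcases lt_or_eq_of_le (not_lt.1 hcon) with h6 | h6
          · exact hex ⟨p, γ, hp, hγ, h6⟩
          · exact hn ⟨p, γ, hγ, h6.symm⟩
        exact ⟨fun _ => h5.2, fun h6 => absurd h5.1 (not_lt.2 h6.le),
          fun h6 => absurd h6 h5.1.ne⟩
  · rintro (h | h) ⟨⟨p, γ, -, hγ, h1⟩, ⟨p', γ', -, hγ', h1'⟩⟩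
    · exact absurd (mono_down D hC h hγ') (not_le.2 h1')
    · exact absurd (mono_up D hC h hγ) (not_le.2 h1)

end Pool.Agent.Results.MP_39d40e_nt.UnmixedClasses
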